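import Mathlib
import Pool.Agent.V11122.CwBasic

set_option autoImplicit false

/-! Graphs with a monotone partition into four cliques with a box graph that is a 4-cycle, whose
clique-width is at least a constant times the square root of the number of vertices. -/

namespace Pool.Agent.Results.MP_41df87_co.FourCliqueCycle

open SimpleGraph Pool.Agent.H175R2 Pool.Agent.V11122

/-- `part : V → Fin k` is a monotone partition of `V(G)` into (nonempty) cliques: the parts are
cliques, and of any two vertices `u`, `v` of a part, one has all the neighbours of the other outside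
the part. -/
structure IsMonotoneCliquePartition {V : Type} (G : SimpleGraph V) {k : ℕ} (part : V → Fin k) :
    Prop where
  surj : Function.Surjective part
  clique : ∀ u v, part u = part v → u ≠ v → G.Adj u v
  mono : ∀ u v, part u = part v → (∀ y, part y ≠ part u → G.Adj u y → G.Adj v y) ∨
    (∀ y, part y ≠ part u → G.Adj v y → G.Adj u y)

/-- The parts `i` and `j` are uniform to each other. -/
def Uniform {V : Type} (G : SimpleGraph V) {k : ℕ} (part : V → Fin k) (i j : Fin k) : Prop :=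
  (∀ u v, part u = i → part v = j → G.Adj u v) ∨ (∀ u v, part u = i → part v = j → ¬ G.Adj u v)

/-- The box graph: parts are adjacent if they are not uniform to each other. -/
def boxGraph {V : Type} (G : SimpleGraph V) {k : ℕ} (part : V → Fin k) : SimpleGraph (Fin k) :=
  SimpleGraph.fromRel (fun i j => ¬ Uniform G part i j)

/-- The relation defining the graph; the shift `q` is between parts `0` and `3`. -/
def rel (q N : ℕ) (u v : Fin 4 × Fin N) : Prop :=
  u.1 = v.1 ∨ (u.1 = 0 ∧ v.1 = 1 ∧ v.2.1 ≤ u.2.1) ∨ (u.1 = 2 ∧ v.1 = 1 ∧ v.2.1 ≤ u.2.1) ∨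
    (u.1 = 2 ∧ v.1 = 3 ∧ v.2.1 ≤ u.2.1) ∨ (u.1 = 0 ∧ v.1 = 3 ∧ v.2.1 + q ≤ u.2.1)

/-- The graph: four cliques of size `N` in a cyclic arrangement. -/
def gr (q N : ℕ) : SimpleGraph (Fin 4 × Fin N) := SimpleGraph.fromRel (rel q N)

section
variable {q N : ℕ}

theorem adj01 (a b : Fin N) : (gr q N).Adj (0, a) (1, b) ↔ b.1 ≤ a.1 := by
  simp [gr, rel]

theorem adj21 (a b : Fin N) : (gr q N).Adj (2, a) (1, b) ↔ b.1 ≤ a.1 := by
  simp [gr, rel]

theorem adj23 (a b : Fin N) : (gr q N).Adj (2, a) (3, b) ↔ b.1 ≤ a.1 := by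
  simp [gr, rel]

theorem adj03 (a b : Fin N) : (gr q N).Adj (0, a) (3, b) ↔ b.1 + q ≤ a.1 := by
  simp [gr, rel]

theorem adj02 (a b : Fin N) : ¬ (gr q N).Adj (0, a) (2, b) := by
  simp [gr, rel]

theorem adj13 (a b : Fin N) : ¬ (gr q N).Adj (1, a) (3, b) := by
  simp [gr, rel]

theorem adjii (i : Fin 4) (a b : Fin N) : (gr q N).Adj (i, a) (i, b) ↔ a ≠ b := by
  simp [gr, rel]

theorem mono_aux (i : Fin 4) (a b : Fin N) (hab : a.1 ≤ b.1) :
    (∀ y : Fin 4 × Fin N, y.1 ≠ i → (gr q N).Adj (i, a) y → (gr q N).Adj (i, b) y) ∨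
    (∀ y : Fin 4 × Fin N, y.1 ≠ i → (gr q N).Adj (i, b) y → (gr q N).Adj (i, a) y) := by
  fin_cases i
  · left
    rintro ⟨j, c⟩ hj h
    fin_cases j
    · exact absurd rfl hj
    · exact (adj01 b c).2 (((adj01 a c).1 h).trans hab)
    · exact absurd h (adj02 a c)
    · exact (adj03 b c).2 (((adj03 a c).1 h).trans hab)
  · right
    rintro ⟨j, c⟩ hj h
    fin_cases j
    · exact ((adj01 c a).2 (hab.trans ((adj01 c b).1 h.symm))).symm
    · exact absurd rfl hj
    · exact ((adj21 c a).2 (hab.trans ((adj21 c b).1 h.symm))).symm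
    · exact absurd h (adj13 b c)
  · left
    rintro ⟨j, c⟩ hj h
    fin_cases j
    · exact absurd h.symm (adj02 c a)
    · exact (adj21 b c).2 (((adj21 a c).1 h).trans hab)
    · exact absurd rfl hj
    · exact (adj23 b c).2 (((adj23 a c).1 h).trans hab)
  · right
    rintro ⟨j, c⟩ hj h
    fin_cases j
    · exact ((adj03 c a).2 ((Nat.add_le_add_right hab q).trans ((adj03 c b).1 h.symm))).symm
    · exact absurd h.symm (adj13 c b)
    · exact ((adj23 c a).2 (hab.trans ((adj23 c b).1 h.symm))).symm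
    · exact absurd rfl hj

theorem isPart (hN : 0 < N) :
    IsMonotoneCliquePartition (gr q N) (Prod.fst : Fin 4 × Fin N → Fin 4) := by
  refine ⟨fun i => ⟨(i, ⟨0, hN⟩), rfl⟩, ?_, ?_⟩
  · rintro ⟨i, a⟩ ⟨j, b⟩ h hne
    simp only at h
    subst h
    rw [adjii]
    intro h
    exact hne (by rw [h])
  · rintro ⟨i, a⟩ ⟨j, b⟩ h
    simp only at h
    subst h
    rcases le_total a.1 b.1 with hab | hab
    · exact mono_aux i a b hab
    · exact (mono_aux i b a hab).symm

theorem box_eq (hq : 2 ≤ q) (hN : N = q * q) :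
    boxGraph (gr q N) (Prod.fst : Fin 4 × Fin N → Fin 4) = cycleGraph 4 := by
  have hN2 : 2 ≤ N := by nlinarith
  have hqN : q + 1 ≤ N := by nlinarith
  have n01 : ¬ Uniform (gr q N) (Prod.fst : Fin 4 × Fin N → Fin 4) 0 1 := by
    rintro (h | h)
    · have := (adj01 _ _).1 (h (0, ⟨0, by omega⟩) (1, ⟨1, by omega⟩) rfl rfl)
      simp at this
    · exact h (0, ⟨0, by omega⟩) (1, ⟨0, by omega⟩) rfl rfl ((adj01 _ _).2 le_rfl)
  have n21 : ¬ Uniform (gr q N) (Prod.fst : Fin 4 × Fin N → Fin 4) 2 1 := by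
    rintro (h | h)
    · have := (adj21 _ _).1 (h (2, ⟨0, by omega⟩) (1, ⟨1, by omega⟩) rfl rfl)
      simp at this
    · exact h (2, ⟨0, by omega⟩) (1, ⟨0, by omega⟩) rfl rfl ((adj21 _ _).2 le_rfl)
  have n23 : ¬ Uniform (gr q N) (Prod.fst : Fin 4 × Fin N → Fin 4) 2 3 := by
    rintro (h | h)
    · have := (adj23 _ _).1 (h (2, ⟨0, by omega⟩) (3, ⟨1, by omega⟩) rfl rfl)
      simp at this
    · exact h (2, ⟨0, by omega⟩) (3, ⟨0, by omega⟩) rfl rfl ((adj23 _ _).2 le_rfl)
  have n03 : ¬ Uniform (gr q N) (Prod.fst : Fin 4 × Fin N → Fin 4) 0 3 := by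
    rintro (h | h)
    · have := (adj03 _ _).1 (h (0, ⟨0, by omega⟩) (3, ⟨1, by omega⟩) rfl rfl)
      simp only at this
      omega
    · exact h (0, ⟨q, by omega⟩) (3, ⟨0, by omega⟩) rfl rfl
        ((adj03 _ _).2 (by simp))
  have u02 : Uniform (gr q N) (Prod.fst : Fin 4 × Fin N → Fin 4) 0 2 := by
    right
    rintro ⟨i, a⟩ ⟨j, b⟩ h1 h2
    simp only at h1 h2
    subst h1; subst h2
    exact adj02 a b
  have u13 : Uniform (gr q N) (Prod.fst : Fin 4 × Fin N → Fin 4) 1 3 := by
    right
    rintro ⟨i, a⟩ ⟨j, b⟩ h1 h2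
    simp only at h1 h2
    subst h1; subst h2
    exact adj13 a b
  have usymm : ∀ i j, Uniform (gr q N) (Prod.fst : Fin 4 × Fin N → Fin 4) i j →
      Uniform (gr q N) (Prod.fst : Fin 4 × Fin N → Fin 4) j i := by
    rintro i j (h | h)
    · exact Or.inl fun u v hu hv => (h v u hv hu).symm
    · exact Or.inr fun u v hu hv hadj => h v u hv hu hadj.symm
  ext i j
  rw [boxGraph, SimpleGraph.fromRel_adj]
  have hc : ∀ i j : Fin 4, (cycleGraph 4).Adj i j ↔ (j = i + 1 ∨ i = j + 1) := by decide
  rw [hc]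
  fin_cases i <;> fin_cases j
  · simp
  · exact ⟨fun _ => by decide, fun _ => ⟨by decide, Or.inl n01⟩⟩
  · constructor
    · rintro ⟨-, h | h⟩
      · exact absurd u02 h
      · exact absurd (usymm _ _ u02) h
    · intro h; exact absurd h (by decide)
  · exact ⟨fun _ => by decide, fun _ => ⟨by decide, Or.inl n03⟩⟩
  · exact ⟨fun _ => by decide, fun _ => ⟨by decide, Or.inr n01⟩⟩
  · simp
  · exact ⟨fun _ => by decide, fun _ => ⟨by decide, Or.inr n21⟩⟩
  · constructor
    · rintro ⟨-, h | h⟩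
      · exact absurd u13 h
      · exact absurd (usymm _ _ u13) h
    · intro h; exact absurd h (by decide)
  · constructor
    · rintro ⟨-, h | h⟩
      · exact absurd (usymm _ _ u02) h
      · exact absurd u02 h
    · intro h; exact absurd h (by decide)
  · exact ⟨fun _ => by decide, fun _ => ⟨by decide, Or.inl n21⟩⟩
  · simp
  · exact ⟨fun _ => by decide, fun _ => ⟨by decide, Or.inl n23⟩⟩
  · exact ⟨fun _ => by decide, fun _ => ⟨by decide, Or.inr n03⟩⟩
  · constructor
    · rintro ⟨-, h | h⟩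
      · exact absurd (usymm _ _ u13) h
      · exact absurd u13 h
    · intro h; exact absurd h (by decide)
  · exact ⟨fun _ => by decide, fun _ => ⟨by decide, Or.inr n23⟩⟩
  · simp

end

/-! ### Half graphs across a cut -/

theorem card_le_types {V : Type} {G : SimpleGraph V} {S : Set V} {k : ℕ} (hT : Types G S k)
    (P : Finset ℕ) (f : ℕ → V) (hf : ∀ p ∈ P, f p ∈ S)
    (hd : ∀ p ∈ P, ∀ p' ∈ P, p < p' → ∃ z, z ∉ S ∧ ¬ (G.Adj (f p) z ↔ G.Adj (f p') z)) :
    P.card ≤ k := by
  obtain ⟨l, hl⟩ := hT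
  have h := Finset.card_le_card_of_injOn (s := P) (t := (Finset.univ : Finset (Fin k)))
    (fun p => l (f p)) (fun _ _ => Finset.mem_univ _) (by
      intro p hp p' hp' hpp
      by_contra hne
      rcases Nat.lt_or_gt_of_ne hne with h | h
      · obtain ⟨z, hz, hz2⟩ := hd p hp p' hp' h
        exact hz2 (hl _ (hf p hp) _ (hf p' hp') hpp z hz)
      · obtain ⟨z, hz, hz2⟩ := hd p' hp' p hp h
        exact hz2 (hl _ (hf p' hp') _ (hf p hp) hpp.symm z hz))
  simpa using h

/-- For a half graph with shift `δ` and a cut with few types, membership in the cut agrees, with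
few exceptions, at corresponding positions. -/
theorem half {V : Type} {G : SimpleGraph V} {S : Set V} {k : ℕ} (hT : Types G S k) (N δ ε : ℕ)
    (hε : ε ≤ 1) (X Y : ℕ → V)
    (hXY : ∀ p p', p < N → p' < N → (G.Adj (X p) (Y p') ↔ p' + δ ≤ p)) (P : Finset ℕ)
    (hP : ∀ p ∈ P, p + δ < N ∧ p + ε < N ∧ ¬ (X (p + δ) ∈ S ↔ Y (p + ε) ∈ S)) :
    P.card ≤ 2 * k := by
  classical
  have h1 : (P.filter (fun p => X (p + δ) ∈ S)).card ≤ k := by
    apply card_le_types hT _ (fun p => X (p + δ))
    · intro p hp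
      exact (Finset.mem_filter.1 hp).2
    · intro p hp p' hp' hlt
      rw [Finset.mem_filter] at hp hp'
      obtain ⟨a1, a2, a3⟩ := hP p hp.1
      obtain ⟨b1, b2, b3⟩ := hP p' hp'.1
      rcases Nat.lt_or_ge ε 1 with hε0 | hε1
      · -- `ε = 0`: use `Y p'`
        have hz : ε = 0 := by omega
        subst hz
        refine ⟨Y (p' + 0), fun h => b3 ⟨fun _ => h, fun _ => hp'.2⟩, ?_⟩
        rw [hXY _ _ a1 b2, hXY _ _ b1 b2]
        omega
      · have hz : ε = 1 := by omega
        subst hz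
        refine ⟨Y (p + 1), fun h => a3 ⟨fun _ => h, fun _ => hp.2⟩, ?_⟩
        rw [hXY _ _ a1 a2, hXY _ _ b1 a2]
        omega
  have h2 : (P.filter (fun p => ¬ X (p + δ) ∈ S)).card ≤ k := by
    apply card_le_types hT _ (fun p => Y (p + ε))
    · intro p hp
      rw [Finset.mem_filter] at hp
      obtain ⟨a1, a2, a3⟩ := hP p hp.1
      by_contra hcon
      exact a3 ⟨fun h => absurd h hp.2, fun h => absurd h hcon⟩
    · intro p hp p' hp' hlt
      rw [Finset.mem_filter] at hp hp'
      obtain ⟨a1, a2, a3⟩ := hP p hp.1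
      obtain ⟨b1, b2, b3⟩ := hP p' hp'.1
      rcases Nat.lt_or_ge ε 1 with hε0 | hε1
      · have hz : ε = 0 := by omega
        subst hz
        refine ⟨X (p + δ), hp.2, ?_⟩
        rw [SimpleGraph.adj_comm, hXY _ _ a1 a2, SimpleGraph.adj_comm, hXY _ _ a1 b2]
        omega
      · have hz : ε = 1 := by omega
        subst hz
        refine ⟨X (p' + δ), hp'.2, ?_⟩
        rw [SimpleGraph.adj_comm, hXY _ _ b1 a2, SimpleGraph.adj_comm, hXY _ _ b1 b2]
        omega
  have h3 := Finset.card_filter_add_card_filter_not (s := P) (fun p => X (p + δ) ∈ S)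
  omega

/-- The combinatorial end of the argument, for a 0-1 sequence `s` of length `q * q`. -/
theorem seq_count {q k : ℕ} (hq : 2 ≤ q) (s : ℕ → Prop)
    (h1 : ∀ P : Finset ℕ, (∀ p ∈ P, p + 1 < q * q ∧ ¬ (s p ↔ s (p + 1))) → P.card ≤ 4 * k)
    (h2 : ∀ P : Finset ℕ, (∀ p ∈ P, p + q < q * q ∧ ¬ (s p ↔ s (p + q))) → P.card ≤ 8 * k)
    (h3 : ∀ b : Prop, ∃ P : Finset ℕ, (∀ p ∈ P, p < q * q ∧ ¬ (s p ↔ b)) ∧
      q * q ≤ 3 * P.card) : q ≤ 12 * k := by
  classical
  by_contra hcon
  push Not at hcon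
  -- a residue class without changes
  set D : Finset ℕ := (Finset.range (q * q)).filter (fun p => p + q < q * q ∧ ¬ (s p ↔ s (p + q)))
    with hD
  have hDc : D.card ≤ 8 * k := h2 D (fun p hp => (Finset.mem_filter.1 hp).2)
  obtain ⟨r, hr1, hr2⟩ : ∃ r ∈ Finset.range q, r ∉ D.image (fun p => p % q) := by
    apply Finset.exists_mem_notMem_of_card_lt_card
    rw [Finset.card_range]
    have := Finset.card_image_le (s := D) (f := fun p => p % q)
    omega
  rw [Finset.mem_range] at hr1
  have hconst : ∀ j, j < q → (s (r + j * q) ↔ s r) := by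
    intro j
    induction j with
    | zero => intro _; simp
    | succ j ih =>
      intro hj
      rw [← ih (by omega)]
      have hlt : r + j * q + q < q * q := by
        have : (j + 2) * q ≤ q * q := Nat.mul_le_mul_right q (by omega)
        have e : (j + 2) * q = j * q + 2 * q := by ring
        omega
      have e : r + (j + 1) * q = r + j * q + q := by ring
      rw [e]
      by_contra hne
      apply hr2
      rw [Finset.mem_image]
      refine ⟨r + j * q, ?_, ?_⟩
      · rw [hD, Finset.mem_filter, Finset.mem_range]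
        exact ⟨by omega, hlt, fun h => hne h.symm⟩
      · rw [Nat.add_mul_mod_self_right]
        exact Nat.mod_eq_of_lt hr1
  -- the changes
  set E : Finset ℕ := (Finset.range (q * q)).filter (fun p => p + 1 < q * q ∧ ¬ (s p ↔ s (p + 1)))
    with hE
  have hEc : E.card ≤ 4 * k := h1 E (fun p hp => (Finset.mem_filter.1 hp).2)
  obtain ⟨P, hP1, hP2⟩ := h3 (s r)
  have hsub : P ⊆ (E.image (fun p => p / q)).biUnion (fun j => Finset.Ico (j * q) (j * q + q)) := by
    intro p hp
    obtain ⟨hp1, hp2⟩ := hP1 p hp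
    have hj : p / q < q := Nat.div_lt_of_lt_mul hp1
    have hdm := Nat.div_add_mod p q
    have hmod := Nat.mod_lt p (show 0 < q by omega)
    have hcm : q * (p / q) = (p / q) * q := Nat.mul_comm _ _
    rw [Finset.mem_biUnion]
    refine ⟨p / q, ?_, ?_⟩
    · -- a change inside the block
      by_contra hno
      have hnochange : ∀ x, (p / q) * q ≤ x → x + 1 < (p / q) * q + q → (s x ↔ s (x + 1)) := by
        intro x hx1 hx2
        by_contra hne
        apply hno
        rw [Finset.mem_image]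
        have hbound : (p / q) * q + q ≤ q * q := by
          have : (p / q + 1) * q ≤ q * q := Nat.mul_le_mul_right q hj
          have e : (p / q + 1) * q = (p / q) * q + q := by ring
          omega
        refine ⟨x, ?_, ?_⟩
        · rw [hE, Finset.mem_filter, Finset.mem_range]
          exact ⟨by omega, by omega, hne⟩
        · apply Nat.div_eq_of_lt_le
          · exact hx1
          · have e : (p / q + 1) * q = (p / q) * q + q := by ring
            omega
      have hall : ∀ d, d < q → (s ((p / q) * q + d) ↔ s ((p / q) * q)) := by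
        intro d
        induction d with
        | zero => intro _; simp
        | succ d ih =>
          intro hd
          rw [← ih (by omega)]
          exact (hnochange ((p / q) * q + d) (by omega) (by omega)).symm
      have e1 := hall (p % q) hmod
      have e2 := hall r hr1
      have e3 := hconst (p / q) hj
      rw [show (p / q) * q + p % q = p by omega] at e1
      rw [show (p / q) * q + r = r + (p / q) * q by omega] at e2
      exact hp2 (e1.trans (e2.symm.trans e3))
    · rw [Finset.mem_Ico]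
      omega
  have hcard : P.card ≤ 4 * k * q := by
    calc P.card ≤ _ := Finset.card_le_card hsub
      _ ≤ ∑ j ∈ E.image (fun p => p / q), (Finset.Ico (j * q) (j * q + q)).card :=
        Finset.card_biUnion_le
      _ = ∑ j ∈ E.image (fun p => p / q), q := by
        apply Finset.sum_congr rfl
        intro j _
        rw [Nat.card_Ico]; omega
      _ = (E.image (fun p => p / q)).card * q := by simp
      _ ≤ 4 * k * q := Nat.mul_le_mul_right q (Finset.card_image_le.trans hEc)
  have : q * q ≤ 12 * k * q := by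
    calc q * q ≤ 3 * P.card := hP2
      _ ≤ 3 * (4 * k * q) := Nat.mul_le_mul_left 3 hcard
      _ = 12 * k * q := by ring
  have := Nat.le_of_mul_le_mul_right this (by omega)
  omega

theorem lower {q : ℕ} (hq : 2 ≤ q) : q ≤ 12 * cliqueWidth (gr q (q * q)) := by
  classical
  set N := q * q with hN
  have hN4 : 4 ≤ N := by nlinarith
  haveI : Nonempty (Fin 4 × Fin N) := ⟨(0, ⟨0, by omega⟩)⟩
  set k := cliqueWidth (gr q N) with hk
  have hcw : CwLE (gr q N) k := cwLE_cliqueWidth _
  let vt : Fin 4 → ℕ → Fin 4 × Fin N := fun i p => (i, ⟨p % N, Nat.mod_lt _ (by omega)⟩)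
  have hvt : ∀ i p (h : p < N), vt i p = (i, ⟨p, h⟩) := by
    intro i p h
    simp only [vt, Nat.mod_eq_of_lt h]
  set W : Set (Fin 4 × Fin N) := {v | v.1 = 0} with hW
  have hWi : W = (fun p : Fin N => ((0 : Fin 4), p)) '' Set.univ := by
    ext ⟨i, p⟩
    simp only [hW, Set.mem_setOf_eq, Set.image_univ, Set.mem_range, Prod.mk.injEq]
    constructor
    · rintro rfl; exact ⟨p, rfl, rfl⟩
    · rintro ⟨_, h, _⟩; exact h.symm
  have hinj0 : Function.Injective (fun p : Fin N => ((0 : Fin 4), p)) :=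
    fun a b h => (Prod.mk.inj h).2
  have hWc : W.ncard = N := by
    rw [hWi, Set.ncard_image_of_injective _ hinj0, Set.ncard_univ]
    simp
  obtain ⟨S, hT, hb1, hb2⟩ := balanced_cut (gr q N) k hcw W (by omega)
  rw [hWc] at hb1 hb2
  let s : ℕ → Prop := fun p => vt 0 p ∈ S
  -- counting positions
  have hcount : ∀ (Q : Set (Fin 4 × Fin N)), (Q ∩ W).ncard =
      ((Finset.range N).filter (fun p => vt 0 p ∈ Q)).card := by
    intro Q
    have e : Q ∩ W = (vt 0) '' ((Finset.range N).filter (fun p => vt 0 p ∈ Q) : Finset ℕ) := by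
      ext ⟨i, p⟩
      simp only [Set.mem_inter_iff, hW, Set.mem_setOf_eq, Set.mem_image, Finset.coe_filter,
        Finset.mem_range]
      constructor
      · rintro ⟨h1, rfl⟩
        exact ⟨p.1, ⟨p.2, by rw [hvt 0 p.1 p.2]; exact h1⟩, hvt 0 p.1 p.2⟩
      · rintro ⟨x, ⟨hx1, hx2⟩, hx3⟩
        rw [hx3] at hx2
        refine ⟨hx2, ?_⟩
        rw [hvt 0 x hx1] at hx3
        exact (congrArg Prod.fst hx3).symm
    rw [e, Set.ncard_image_of_injOn, Set.ncard_coe_finset]
    intro x hx y hy hxy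
    have hx' := (Finset.mem_filter.1 hx).1
    have hy' := (Finset.mem_filter.1 hy).1
    rw [Finset.mem_range] at hx' hy'
    rw [hvt 0 x hx', hvt 0 y hy'] at hxy
    exact congrArg (fun v : Fin 4 × Fin N => v.2.1) hxy
  apply seq_count (k := k) hq s
  · -- consecutive positions
    intro P hP
    have hsub : P ⊆ P.filter (fun p => ¬ (vt 0 (p + 0) ∈ S ↔ vt 1 (p + 1) ∈ S)) ∪
        (P.filter (fun p => ¬ (vt 0 (p + 1) ∈ S ↔ vt 1 (p + 1) ∈ S))) := by
      intro p hp
      have := (hP p hp).2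
      rw [Finset.mem_union, Finset.mem_filter, Finset.mem_filter]
      by_contra hcon
      push Not at hcon
      have e1 := hcon.1 hp
      have e2 := hcon.2 hp
      exact this (e1.trans e2.symm)
    have hA : (P.filter (fun p => ¬ (vt 0 (p + 0) ∈ S ↔ vt 1 (p + 1) ∈ S))).card ≤ 2 * k := by
      refine half hT N 0 1 le_rfl (vt 0) (vt 1) ?_ _ ?_
      · intro p p' h1 h2
        rw [hvt 0 p h1, hvt 1 p' h2, adj01]
        simp
      · intro p hp
        rw [Finset.mem_filter] at hp
        have := (hP p hp.1).1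
        exact ⟨by omega, by omega, hp.2⟩
    have hB : (P.filter (fun p => ¬ (vt 0 (p + 1) ∈ S ↔ vt 1 (p + 1) ∈ S))).card ≤ 2 * k := by
      have e1 : ((P.filter (fun p => ¬ (vt 0 (p + 1) ∈ S ↔ vt 1 (p + 1) ∈ S))).image
          (fun p => p + 1)).card = (P.filter (fun p => ¬ (vt 0 (p + 1) ∈ S ↔
            vt 1 (p + 1) ∈ S))).card := by
        apply Finset.card_image_of_injective
        intro a b h
        simpa using h
      rw [← e1]
      refine half hT N 0 0 (by omega) (vt 0) (vt 1) ?_ _ ?_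
      · intro p p' h1 h2
        rw [hvt 0 p h1, hvt 1 p' h2, adj01]
        simp
      · intro p hp
        obtain ⟨x, hx, rfl⟩ := Finset.mem_image.1 hp
        rw [Finset.mem_filter] at hx
        have := (hP x hx.1).1
        exact ⟨by omega, by omega, hx.2⟩
    have h1 := Finset.card_le_card hsub
    have h2 := Finset.card_union_le (P.filter (fun p => ¬ (vt 0 (p + 0) ∈ S ↔ vt 1 (p + 1) ∈ S)))
      (P.filter (fun p => ¬ (vt 0 (p + 1) ∈ S ↔ vt 1 (p + 1) ∈ S)))
    omega
  · -- positions at distance `q`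
    intro P hP
    have hA : (P.filter (fun p => ¬ (vt 0 (p + 0) ∈ S ↔ vt 1 (p + 0) ∈ S))).card ≤ 2 * k := by
      refine half hT N 0 0 (by omega) (vt 0) (vt 1) ?_ _ ?_
      · intro p p' h1 h2
        rw [hvt 0 p h1, hvt 1 p' h2, adj01]
        simp
      · intro p hp
        rw [Finset.mem_filter] at hp
        have := (hP p hp.1).1
        exact ⟨by omega, by omega, hp.2⟩
    have hB : (P.filter (fun p => ¬ (vt 2 (p + 0) ∈ S ↔ vt 1 (p + 0) ∈ S))).card ≤ 2 * k := by
      refine half hT N 0 0 (by omega) (vt 2) (vt 1) ?_ _ ?_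
      · intro p p' h1 h2
        rw [hvt 2 p h1, hvt 1 p' h2, adj21]
        simp
      · intro p hp
        rw [Finset.mem_filter] at hp
        have := (hP p hp.1).1
        exact ⟨by omega, by omega, hp.2⟩
    have hC : (P.filter (fun p => ¬ (vt 2 (p + 0) ∈ S ↔ vt 3 (p + 0) ∈ S))).card ≤ 2 * k := by
      refine half hT N 0 0 (by omega) (vt 2) (vt 3) ?_ _ ?_
      · intro p p' h1 h2
        rw [hvt 2 p h1, hvt 3 p' h2, adj23]
        simp
      · intro p hp
        rw [Finset.mem_filter] at hp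
        have := (hP p hp.1).1
        exact ⟨by omega, by omega, hp.2⟩
    have hD : (P.filter (fun p => ¬ (vt 0 (p + q) ∈ S ↔ vt 3 (p + 0) ∈ S))).card ≤ 2 * k := by
      refine half hT N q 0 (by omega) (vt 0) (vt 3) ?_ _ ?_
      · intro p p' h1 h2
        rw [hvt 0 p h1, hvt 3 p' h2, adj03]
      · intro p hp
        rw [Finset.mem_filter] at hp
        have := (hP p hp.1).1
        exact ⟨by omega, by omega, hp.2⟩
    have hsub : P ⊆ ((P.filter (fun p => ¬ (vt 0 (p + 0) ∈ S ↔ vt 1 (p + 0) ∈ S))) ∪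
        (P.filter (fun p => ¬ (vt 2 (p + 0) ∈ S ↔ vt 1 (p + 0) ∈ S)))) ∪
        ((P.filter (fun p => ¬ (vt 2 (p + 0) ∈ S ↔ vt 3 (p + 0) ∈ S))) ∪
        (P.filter (fun p => ¬ (vt 0 (p + q) ∈ S ↔ vt 3 (p + 0) ∈ S)))) := by
      intro p hp
      have := (hP p hp).2
      simp only [Finset.mem_union, Finset.mem_filter]
      by_contra hcon
      push Not at hcon
      have e1 := hcon.1.1 hp
      have e2 := hcon.1.2 hp
      have e3 := hcon.2.1 hp
      have e4 := hcon.2.2 hp
      exact this (e1.trans (e2.symm.trans (e3.trans e4.symm)))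
    have h1 := Finset.card_le_card hsub
    have h2 := Finset.card_union_le
      ((P.filter (fun p => ¬ (vt 0 (p + 0) ∈ S ↔ vt 1 (p + 0) ∈ S))) ∪
        (P.filter (fun p => ¬ (vt 2 (p + 0) ∈ S ↔ vt 1 (p + 0) ∈ S))))
      ((P.filter (fun p => ¬ (vt 2 (p + 0) ∈ S ↔ vt 3 (p + 0) ∈ S))) ∪
        (P.filter (fun p => ¬ (vt 0 (p + q) ∈ S ↔ vt 3 (p + 0) ∈ S))))
    have h3 := Finset.card_union_le
      (P.filter (fun p => ¬ (vt 0 (p + 0) ∈ S ↔ vt 1 (p + 0) ∈ S)))
      (P.filter (fun p => ¬ (vt 2 (p + 0) ∈ S ↔ vt 1 (p + 0) ∈ S)))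
    have h4 := Finset.card_union_le
      (P.filter (fun p => ¬ (vt 2 (p + 0) ∈ S ↔ vt 3 (p + 0) ∈ S)))
      (P.filter (fun p => ¬ (vt 0 (p + q) ∈ S ↔ vt 3 (p + 0) ∈ S)))
    omega
  · -- balance
    intro b
    by_cases hb : b
    · refine ⟨(Finset.range N).filter (fun p => vt 0 p ∈ Sᶜ), ?_, ?_⟩
      · intro p hp
        rw [Finset.mem_filter, Finset.mem_range] at hp
        exact ⟨hp.1, fun h => hp.2 (h.2 hb)⟩
      · have e0 := hcount Sᶜ
        have e1 : (S ∩ W).ncard + (Sᶜ ∩ W).ncard = N := by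
          refine Eq.trans ?_ hWc
          rw [← Set.ncard_union_eq, ← Set.union_inter_distrib_right, Set.union_compl_self,
            Set.univ_inter]
          rw [Set.disjoint_left]
          rintro x ⟨hx, -⟩ ⟨hx', -⟩
          exact hx' hx
        have e2 : N ≤ 3 * (Sᶜ ∩ W).ncard := by omega
        rw [e0] at e2
        refine le_trans e2 (Nat.mul_le_mul_left 3 (le_of_eq ?_))
        congr
    · refine ⟨(Finset.range N).filter (fun p => vt 0 p ∈ S), ?_, ?_⟩
      · intro p hp
        rw [Finset.mem_filter, Finset.mem_range] at hp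
        exact ⟨hp.1, fun h => hb (h.1 hp.2)⟩
      · have e0 := hcount S
        rw [e0] at hb1
        exact hb1

theorem main (q : ℕ) (hq : 2 ≤ q) : ∃ (V : Type) (_ : Fintype V) (G : SimpleGraph V)
    (part : V → Fin 4), Fintype.card V = 4 * q ^ 2 ∧ IsMonotoneCliquePartition G part ∧
      Nonempty (boxGraph G part ≃g cycleGraph 4) ∧ q ≤ 12 * cliqueWidth G := by
  refine ⟨Fin 4 × Fin (q * q), inferInstance, gr q (q * q), Prod.fst, ?_, ?_, ?_, lower hq⟩
  · simp [sq]
  · exact isPart (by nlinarith)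
  · rw [box_eq hq rfl]
    exact ⟨SimpleGraph.Iso.refl⟩

/-- For every `q ≥ 2` there is a graph with `4 q²` vertices and clique-width at least `q / 12` that
has a monotone partition into four cliques whose box graph is a chordless cycle of length 4; and
the negated form of the question: for graphs with a monotone partition into four cliques whose box
graph is a chordless cycle, the ratio `cwd(G) / log |V(G)|` is unbounded. -/
theorem result :
    (∀ q : ℕ, 2 ≤ q → ∃ (V : Type) (_ : Fintype V) (G : SimpleGraph V)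
      (part : V → Fin 4), Fintype.card V = 4 * q ^ 2 ∧ IsMonotoneCliquePartition G part ∧
        Nonempty (boxGraph G part ≃g cycleGraph 4) ∧ q ≤ 12 * cliqueWidth G) ∧
    (∀ C : ℝ, ∃ (V : Type) (_ : Fintype V) (G : SimpleGraph V) (part : V → Fin 4),
      IsMonotoneCliquePartition G part ∧ Nonempty (boxGraph G part ≃g cycleGraph 4) ∧
        C * Real.log (Fintype.card V) < cliqueWidth G) := by
  refine ⟨main, ?_⟩
  intro C
  obtain ⟨m, hm⟩ := exists_nat_gt (48 * |C|)
  have hm0 : (0 : ℝ) < m := lt_of_le_of_lt (by positivity) hm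
  have hm1 : 1 ≤ m := by exact_mod_cast hm0
  obtain ⟨V, hV, G, part, h1, h2, h3, h4⟩ := main (2 * m ^ 2) (by nlinarith)
  refine ⟨V, hV, G, part, h2, h3, ?_⟩
  have e1 : ((Fintype.card V : ℕ) : ℝ) = (2 * (m : ℝ)) ^ 4 := by
    rw [h1]
    push_cast
    ring
  have e2 : Real.log (2 * (m : ℝ)) ≤ 2 * (m : ℝ) := Real.log_le_self (by positivity)
  have e2' : 0 ≤ Real.log (2 * (m : ℝ)) := by
    apply Real.log_nonneg
    have : (1 : ℝ) ≤ m := by exact_mod_cast hm1
    linarith
  have e3 : Real.log (Fintype.card V) = 4 * Real.log (2 * (m : ℝ)) := by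
    rw [e1, Real.log_pow]
    norm_num
  have e4 : ((2 * m ^ 2 : ℕ) : ℝ) ≤ 12 * (cliqueWidth G : ℝ) := by exact_mod_cast h4
  push_cast at e4
  have e5 : C * Real.log (Fintype.card V) ≤ |C| * (8 * m) := by
    rw [e3]
    calc C * (4 * Real.log (2 * (m : ℝ))) ≤ |C| * (4 * Real.log (2 * (m : ℝ))) :=
          mul_le_mul_of_nonneg_right (le_abs_self C) (by positivity)
      _ ≤ |C| * (8 * m) := by
          apply mul_le_mul_of_nonneg_left _ (abs_nonneg C)
          linarith
  nlinarith

end Pool.Agent.Results.MP_41df87_co.FourCliqueCycle
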